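import Mathlib

/-!
# Two-dimensional piercing partitions: the LP duality argument

`exists_optimal` : finite minimax theorem with optimal strategies.
`main_bound` : if `S x`, `T y` are subsets of a finite set `J` with `|S x ∩ T y| = 1` for all
`x, y`, every `j` lies in some but not all `S x` and in some but not all `T y`, and
`|S x| ≥ a`, `|T y| ≥ b`, then `(1-t)(a-1) + t(b-1) ≤ t(1-t)|J|` for some `t ∈ (0,1)`.
-/

set_option autoImplicit false

namespace N382.Pierce

open Finset

theorem exists_optimal {ι J : Type*} [Fintype ι] [Nonempty ι] [Fintype J] [Nonempty J]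
    (M : ι → J → ℝ) :
    ∃ (P : ι → ℝ) (w : J → ℝ) (v : ℝ), (∀ x, 0 ≤ P x) ∧ ∑ x, P x = 1 ∧
      (∀ j, 0 ≤ w j) ∧ ∑ j, w j = 1 ∧
      (∀ j, ∑ x, P x * M x j ≤ v) ∧ (∀ x, v ≤ ∑ j, w j * M x j) := by
  classical
  -- the max payoff
  let F : (ι → ℝ) → ℝ := fun P => univ.sup' univ_nonempty (fun j => ∑ x, P x * M x j)
  have hFc : Continuous F := by
    apply Continuous.finset_sup'_apply
    intro j _
    fun_prop
  have hne : (stdSimplex ℝ ι).Nonempty := by
    obtain ⟨x0⟩ := (inferInstance : Nonempty ι)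
    exact ⟨_, single_mem_stdSimplex ℝ x0⟩
  obtain ⟨P, hP, hmin⟩ := (isCompact_stdSimplex ℝ ι).exists_isMinOn hne hFc.continuousOn
  set v : ℝ := F P with hv
  have hPv : ∀ j, ∑ x, P x * M x j ≤ v := fun j =>
    Finset.le_sup' (fun j => ∑ x, P x * M x j) (mem_univ j)
  let A : Set (J → ℝ) := {q | ∀ j, q j < v}
  let B : Set (J → ℝ) := {q | ∃ P ∈ stdSimplex ℝ ι, ∀ j, q j = ∑ x, P x * M x j}
  have hAconv : Convex ℝ A := by
    intro p hp q hq c d hc hd hcd j
    have h1 := hp j
    have h2 := hq j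
    simp only [Pi.add_apply, Pi.smul_apply, smul_eq_mul]
    rcases hc.eq_or_lt with hc0 | hc0
    · subst hc0
      have : d = 1 := by linarith
      subst this; linarith
    · have h3 := mul_lt_mul_of_pos_left h1 hc0
      have h4 := mul_le_mul_of_nonneg_left h2.le hd
      have h5 : c * v + d * v = v := by rw [← add_mul, hcd, one_mul]
      linarith
  have hAopen : IsOpen A := by
    have : A = ⋂ j, {q : J → ℝ | q j < v} := by
      ext u; simp [A]
    rw [this]
    exact isOpen_iInter_of_finite fun j => isOpen_lt (continuous_apply j) continuous_const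
  have hBconv : Convex ℝ B := by
    rintro p ⟨P₁, hP₁, hp⟩ q ⟨P₂, hP₂, hq⟩ c d hc hd hcd
    refine ⟨c • P₁ + d • P₂, convex_stdSimplex ℝ ι hP₁ hP₂ hc hd hcd, fun j => ?_⟩
    simp only [Pi.add_apply, Pi.smul_apply, smul_eq_mul]
    rw [hp j, hq j, Finset.mul_sum, Finset.mul_sum, ← Finset.sum_add_distrib]
    exact Finset.sum_congr rfl fun x _ => by ring
  have hdisj : Disjoint A B := by
    rw [Set.disjoint_left]
    rintro q hq ⟨P', hP', hqP⟩
    have h1 : F P ≤ F P' := hmin hP'
    have h2 : F P' < v := by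
      rw [Finset.sup'_lt_iff]
      intro j _
      rw [← hqP j]
      exact hq j
    linarith
  obtain ⟨f, s, hfA, hfB⟩ := geometric_hahn_banach_open hAconv hAopen hBconv hdisj
  set l : J → ℝ := fun j => f (Pi.single j 1) with hl
  have hf : ∀ q : J → ℝ, f q = ∑ j, l j * q j := by
    intro q
    have h1 : q = ∑ j, q j • (Pi.single j (1:ℝ) : J → ℝ) := by
      funext i
      simp [Finset.sum_apply, Pi.single_apply]
    conv_lhs => rw [h1]
    rw [map_sum]
    refine Finset.sum_congr rfl fun j _ => ?_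
    rw [map_smul, hl]; simp [mul_comm]
  -- nonnegativity
  have hl0 : ∀ j, 0 ≤ l j := by
    intro j
    by_contra hneg
    push Not at hneg
    set u0 : J → ℝ := fun _ => v - 1 with hu0
    obtain ⟨t, ht0, ht⟩ : ∃ t : ℝ, 0 ≤ t ∧ s - f u0 ≤ t * (- l j) := by
      refine ⟨max 0 ((s - f u0) / (- l j)), le_max_left _ _, ?_⟩
      have := le_max_right 0 ((s - f u0) / (- l j))
      rw [div_le_iff₀ (by linarith)] at this
      exact this
    have h2 : (u0 - t • (Pi.single j (1:ℝ) : J → ℝ)) ∈ A := by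
      intro i
      simp only [Pi.sub_apply, Pi.smul_apply, smul_eq_mul, hu0]
      have : 0 ≤ t * (Pi.single j (1:ℝ) : J → ℝ) i := by
        apply mul_nonneg ht0
        by_cases h : i = j
        · subst h; simp
        · rw [Pi.single_eq_of_ne h]
      linarith
    have h3 := hfA _ h2
    rw [map_sub, map_smul, smul_eq_mul] at h3
    have h4 : f (Pi.single j 1) = l j := by simp [hl]
    rw [h4] at h3
    linarith
  have hsum_pos : 0 < ∑ j, l j := by
    refine lt_of_le_of_ne (Finset.sum_nonneg fun j _ => hl0 j) fun h0 => ?_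
    have hlz : ∀ j, l j = 0 := fun j =>
      (Finset.sum_eq_zero_iff_of_nonneg (fun j _ => hl0 j)).1 h0.symm j (Finset.mem_univ j)
    have h1 := hfA (fun _ => v - 1) (fun j => by show v - 1 < v; linarith)
    have h2 := hfB (fun j => ∑ x, P x * M x j) ⟨P, hP, fun _ => rfl⟩
    rw [hf] at h1 h2
    simp only [hlz, zero_mul, Finset.sum_const_zero] at h1 h2
    linarith
  -- v * sum ≤ s
  have hvs : v * ∑ j, l j ≤ s := by
    by_contra hcon
    push Not at hcon
    set e : ℝ := (v * ∑ j, l j - s) / (2 * ∑ j, l j) with he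
    have he0 : 0 < e := div_pos (by linarith) (by linarith)
    have h1 := hfA (fun _ => v - e) (fun j => by show v - e < v; linarith)
    rw [hf, ← Finset.sum_mul] at h1
    have h2 : e * ∑ j, l j = (v * ∑ j, l j - s) / 2 := by
      rw [he]; field_simp
    nlinarith
  refine ⟨P, fun j => l j / ∑ i, l i, v, hP.1, hP.2,
    fun j => div_nonneg (hl0 j) hsum_pos.le, ?_, hPv, ?_⟩
  · rw [← Finset.sum_div, div_self hsum_pos.ne']
  · intro x
    have h2 := hfB (fun j => M x j) ⟨Pi.single x 1, single_mem_stdSimplex ℝ x, fun j => by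
      rw [Finset.sum_eq_single x]
      · simp
      · intro y _ hy; rw [Pi.single_eq_of_ne hy]; simp
      · simp⟩
    rw [hf] at h2
    have h3 : ∑ j, l j / (∑ i, l i) * M x j = (∑ j, l j * M x j) / ∑ i, l i := by
      rw [Finset.sum_div]
      exact Finset.sum_congr rfl fun φ _ => by ring
    rw [h3, le_div_iff₀ hsum_pos]
    exact hvs.trans h2

section core

variable {ι κ J : Type*} [Fintype ι] [Fintype κ] [Fintype J] [DecidableEq J]

/-- The unbalanced case. -/
theorem unbalanced (S : ι → Finset J) (T : κ → Finset J)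
    (hST : ∀ x y, (S x ∩ T y).card = 1)
    (hS1 : ∀ j, ∃ x, j ∈ S x) (hS0 : ∀ j, ∃ x, j ∉ S x)
    (hT1 : ∀ j, ∃ y, j ∈ T y) (a b : ℝ)
    (ha : ∀ x, a ≤ (S x).card) (hb : ∀ y, b ≤ (T y).card)
    (P : ι → ℝ) (w : J → ℝ) (v : ℝ) (hP0 : ∀ x, 0 ≤ P x) (hP1 : ∑ x, P x = 1)
    (hw0 : ∀ j, 0 ≤ w j) (hw1 : ∑ j, w j = 1)
    (hPv : ∀ j, ∑ x, P x * (if j ∈ S x then (1:ℝ) else 0) ≤ v)
    (hwv : ∀ x, v ≤ ∑ j, w j * (if j ∈ S x then (1:ℝ) else 0))
    (hv : 1 / 2 < v) :
    v < 1 ∧ (1 - v) * (a - 1) + v * (b - 1) ≤ v * (1 - v) * Fintype.card J := by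
  classical
  set p : J → ℝ := fun j => ∑ x, P x * (if j ∈ S x then (1:ℝ) else 0) with hp
  -- slackness
  have hslack : ∀ j, w j ≠ 0 → p j = v := by
    have h1 : ∑ j, w j * p j ≥ v := by
      have : ∑ j, w j * p j = ∑ x, P x * ∑ j, w j * (if j ∈ S x then (1:ℝ) else 0) := by
        simp only [hp, Finset.mul_sum]
        rw [Finset.sum_comm]
        exact Finset.sum_congr rfl fun x _ => Finset.sum_congr rfl fun j _ => by ring
      rw [this]
      calc v = ∑ x, P x * v := by rw [← Finset.sum_mul, hP1, one_mul]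
        _ ≤ _ := Finset.sum_le_sum fun x _ => mul_le_mul_of_nonneg_left (hwv x) (hP0 x)
    have h2 : ∑ j, w j * (v - p j) = 0 := by
      apply le_antisymm
      · have : ∑ j, w j * (v - p j) = v - ∑ j, w j * p j := by
          simp only [mul_sub, Finset.sum_sub_distrib]
          rw [← Finset.sum_mul, hw1, one_mul]
        rw [this]; linarith
      · exact Finset.sum_nonneg fun j _ => mul_nonneg (hw0 j) (by linarith [hPv j])
    have h3 := (Finset.sum_eq_zero_iff_of_nonneg (fun j _ =>
      mul_nonneg (hw0 j) (by linarith [hPv j] : (0:ℝ) ≤ v - p j))).1 h2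
    intro j hj
    have h4 := h3 j (mem_univ j)
    rcases mul_eq_zero.1 h4 with h | h
    · exact absurd h hj
    · linarith
  have hTp : ∀ y, ∑ j ∈ T y, p j = 1 := by
    intro y
    simp only [hp]
    rw [Finset.sum_comm]
    calc ∑ x, ∑ j ∈ T y, P x * (if j ∈ S x then (1:ℝ) else 0)
        = ∑ x, P x * 1 := by
          refine Finset.sum_congr rfl fun x _ => ?_
          rw [← Finset.mul_sum]
          congr 1
          rw [Finset.sum_ite_mem, Finset.sum_const, Finset.inter_comm, hST x y]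
          simp
      _ = 1 := by simp [hP1]
  have hpS : a ≤ ∑ j, p j := by
    simp only [hp]
    rw [Finset.sum_comm]
    calc a = ∑ x, P x * a := by rw [← Finset.sum_mul, hP1, one_mul]
      _ ≤ ∑ x, ∑ j, P x * (if j ∈ S x then (1:ℝ) else 0) := by
          refine Finset.sum_le_sum fun x _ => ?_
          rw [← Finset.mul_sum]
          refine mul_le_mul_of_nonneg_left ?_ (hP0 x)
          have : ∑ j, (if j ∈ S x then (1:ℝ) else 0) = (S x).card := by
            rw [Finset.sum_ite_mem]; simp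
          rw [this]; exact ha x
  have hp0 : ∀ j, 0 ≤ p j := fun j => Finset.sum_nonneg fun x _ =>
    mul_nonneg (hP0 x) (by split_ifs <;> norm_num)
  -- v < 1
  have hv1 : v < 1 := by
    obtain ⟨j, hj⟩ : ∃ j, w j ≠ 0 := by
      by_contra hcon
      push Not at hcon
      simp [hcon] at hw1
    obtain ⟨x, hx⟩ := hS0 j
    have h1 := hwv x
    have h2 : ∑ i, w i * (if i ∈ S x then (1:ℝ) else 0) + w j ≤ ∑ i, w i := by
      rw [← Finset.add_sum_erase _ _ (mem_univ j), ← Finset.add_sum_erase _ w (mem_univ j)]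
      simp only [hx, if_false, mul_zero, zero_add]
      rw [add_comm]
      gcongr with i _
      split_ifs
      · simp
      · simpa using hw0 i
    have h3 : 0 < w j := lt_of_le_of_ne (hw0 j) (Ne.symm hj)
    rw [hw1] at h2
    linarith
  refine ⟨hv1, ?_⟩
  choose y hy using hT1
  let W : Finset J := univ.filter (fun j => w j ≠ 0)
  let R : Finset J := univ.filter (fun j => ¬ w j ≠ 0)
  have hWR : ∀ g : J → ℝ, ∑ j, g j = ∑ j ∈ W, g j + ∑ j ∈ R, g j := fun g =>
    (Finset.sum_filter_add_sum_filter_not univ (fun j => w j ≠ 0) g).symm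
  -- T (y i) meets W only in i
  have hTW : ∀ i, w i ≠ 0 → ∀ j ∈ T (y i), w j ≠ 0 → j = i := by
    intro i hi j hj hwj
    by_contra hne
    have h1 : p i + p j ≤ ∑ u ∈ T (y i), p u := by
      have h2 : ({i, j} : Finset J) ⊆ T (y i) := by
        intro u hu
        simp only [Finset.mem_insert, Finset.mem_singleton] at hu
        rcases hu with rfl | rfl
        · exact hy _
        · exact hj
      calc p i + p j = ∑ u ∈ ({i, j} : Finset J), p u := by
            rw [Finset.sum_pair (Ne.symm hne)]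
        _ ≤ _ := Finset.sum_le_sum_of_subset_of_nonneg h2 fun u _ _ => hp0 u
    rw [hTp, hslack i hi, hslack j hwj] at h1
    linarith
  -- sum over R of g restricted to T (y i)
  have hTR : ∀ (g : J → ℝ) i, w i ≠ 0 →
      ∑ u ∈ R, g u * (if u ∈ T (y i) then (1:ℝ) else 0) = ∑ u ∈ T (y i), g u - g i := by
    intro g i hi
    have h1 : ∑ u, g u * (if u ∈ T (y i) then (1:ℝ) else 0) = ∑ u ∈ T (y i), g u := by
      simp only [mul_ite, mul_one, mul_zero]
      rw [Finset.sum_ite_mem]; simp
    have h2 : ∑ u ∈ W, g u * (if u ∈ T (y i) then (1:ℝ) else 0) = g i := by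
      rw [Finset.sum_eq_single i]
      · simp [hy i]
      · intro u hu hui
        have hwu : w u ≠ 0 := (Finset.mem_filter.1 hu).2
        have : u ∉ T (y i) := fun h => hui (hTW i hi u h hwu)
        simp [this]
      · intro h
        exact absurd (Finset.mem_filter.2 ⟨mem_univ i, hi⟩) h
    have h3 := hWR (fun u => g u * (if u ∈ T (y i) then (1:ℝ) else 0))
    linarith
  set n : J → ℝ := fun u => ∑ i, w i * (if u ∈ T (y i) then (1:ℝ) else 0) with hn
  have hn0 : ∀ u, 0 ≤ n u := fun u => Finset.sum_nonneg fun i _ =>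
    mul_nonneg (hw0 i) (by split_ifs <;> norm_num)
  have hnR : ∀ u ∈ R, n u ≤ 1 - v := by
    intro u hu
    have hwu : w u = 0 := by
      have := (Finset.mem_filter.1 hu).2
      push Not at this
      exact this
    obtain ⟨x, hx⟩ := hS1 u
    have h1 := hwv x
    have h2 : n u + ∑ j, w j * (if j ∈ S x then (1:ℝ) else 0) ≤ ∑ i, w i := by
      rw [hn, ← Finset.sum_add_distrib]
      refine Finset.sum_le_sum fun i _ => ?_
      by_cases hi : w i = 0
      · simp [hi]
      · by_cases h3 : u ∈ T (y i)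
        · have h4 : i ∉ S x := by
            intro h5
            have h6 : ({i, u} : Finset J) ⊆ S x ∩ T (y i) := by
              intro z hz
              simp only [Finset.mem_insert, Finset.mem_singleton] at hz
              rcases hz with rfl | rfl
              · exact Finset.mem_inter.2 ⟨h5, hy _⟩
              · exact Finset.mem_inter.2 ⟨hx, h3⟩
            have h7 := Finset.card_le_card h6
            rw [hST, Finset.card_pair (by rintro rfl; exact hi hwu)] at h7
            omega
          simp [h3, h4]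
        · simp only [h3, if_false, mul_zero, zero_add]
          split_ifs
          · simp
          · simpa using hw0 i
    rw [hw1] at h2
    linarith
  have hsum_n : ∀ g : J → ℝ, ∑ u ∈ R, n u * g u = ∑ i, w i * (∑ u ∈ T (y i), g u - g i) := by
    intro g
    simp only [hn, Finset.sum_mul]
    rw [Finset.sum_comm]
    refine Finset.sum_congr rfl fun i _ => ?_
    by_cases hi : w i = 0
    · simp [hi]
    · rw [← hTR g i hi, Finset.mul_sum]
      exact Finset.sum_congr rfl fun u _ => by ring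
  have hN1 : b - 1 ≤ ∑ u ∈ R, n u := by
    have h1 := hsum_n (fun _ => 1)
    simp only [mul_one, Finset.sum_const, nsmul_eq_mul] at h1
    rw [h1]
    calc b - 1 = ∑ i, w i * (b - 1) := by rw [← Finset.sum_mul, hw1, one_mul]
      _ ≤ _ := Finset.sum_le_sum fun i _ => mul_le_mul_of_nonneg_left (by linarith [hb (y i)]) (hw0 i)
  have hN2 : ∑ u ∈ R, n u * p u = 1 - v := by
    rw [hsum_n p]
    calc ∑ i, w i * (∑ u ∈ T (y i), p u - p i) = ∑ i, w i * (1 - v) := by
          refine Finset.sum_congr rfl fun i _ => ?_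
          by_cases hi : w i = 0
          · simp [hi]
          · rw [hTp, hslack i hi]
      _ = 1 - v := by rw [← Finset.sum_mul, hw1, one_mul]
  have hWp : ∑ j ∈ W, p j = v * W.card := by
    rw [Finset.sum_congr rfl (fun j hj => hslack j (Finset.mem_filter.1 hj).2),
      Finset.sum_const, nsmul_eq_mul, mul_comm]
  have hcard : (Fintype.card J : ℝ) = W.card + R.card := by
    have := hWR (fun _ => 1)
    simpa using this
  have hRsum : ∑ u ∈ R, (v - p u) = v * R.card - ∑ u ∈ R, p u := by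
    rw [Finset.sum_sub_distrib]; simp [mul_comm]
  have h5 : ∑ u ∈ R, n u * (v - p u) ≤ (1 - v) * ∑ u ∈ R, (v - p u) := by
    rw [Finset.mul_sum]
    exact Finset.sum_le_sum fun u hu =>
      mul_le_mul_of_nonneg_right (hnR u hu) (by linarith [hPv u])
  have h6 : ∑ u ∈ R, n u * (v - p u) = v * ∑ u ∈ R, n u - (1 - v) := by
    rw [← hN2, Finset.mul_sum, ← Finset.sum_sub_distrib]
    exact Finset.sum_congr rfl fun u _ => by ring
  have h7 := hWR p
  have h8 : a ≤ v * W.card + ∑ u ∈ R, p u := by rw [← hWp, ← h7]; exact hpS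
  rw [hcard]
  have h9 : v * (b - 1) ≤ v * ∑ u ∈ R, n u := mul_le_mul_of_nonneg_left hN1 (by linarith)
  have h10 : (1 - v) * a ≤ (1 - v) * (v * W.card + ∑ u ∈ R, p u) :=
    mul_le_mul_of_nonneg_left h8 (by linarith)
  rw [hRsum] at h5
  nlinarith

/-- The balanced case. -/
theorem balanced (S : ι → Finset J) (T : κ → Finset J)
    (hST : ∀ x y, (S x ∩ T y).card = 1) (a b : ℝ)
    (ha : ∀ x, a ≤ (S x).card) (hb : ∀ y, b ≤ (T y).card)
    (P : ι → ℝ) (hP0 : ∀ x, 0 ≤ P x) (hP1 : ∑ x, P x = 1)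
    (Q : κ → ℝ) (hQ0 : ∀ x, 0 ≤ Q x) (hQ1 : ∑ x, Q x = 1)
    (hPv : ∀ j, ∑ x, P x * (if j ∈ S x then (1:ℝ) else 0) ≤ 1 / 2)
    (hQv : ∀ j, ∑ y, Q y * (if j ∈ T y then (1:ℝ) else 0) ≤ 1 / 2) :
    2 * (a - 1) + 2 * (b - 1) ≤ Fintype.card J := by
  classical
  set p : J → ℝ := fun j => ∑ x, P x * (if j ∈ S x then (1:ℝ) else 0) with hp
  set q : J → ℝ := fun j => ∑ y, Q y * (if j ∈ T y then (1:ℝ) else 0) with hq
  have hpS : a ≤ ∑ j, p j := by
    simp only [hp]
    rw [Finset.sum_comm]
    calc a = ∑ x, P x * a := by rw [← Finset.sum_mul, hP1, one_mul]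
      _ ≤ ∑ x, ∑ j, P x * (if j ∈ S x then (1:ℝ) else 0) := by
          refine Finset.sum_le_sum fun x _ => ?_
          rw [← Finset.mul_sum]
          refine mul_le_mul_of_nonneg_left ?_ (hP0 x)
          have : ∑ j, (if j ∈ S x then (1:ℝ) else 0) = (S x).card := by
            rw [Finset.sum_ite_mem]; simp
          rw [this]; exact ha x
  have hqT : b ≤ ∑ j, q j := by
    simp only [hq]
    rw [Finset.sum_comm]
    calc b = ∑ x, Q x * b := by rw [← Finset.sum_mul, hQ1, one_mul]
      _ ≤ ∑ x, ∑ j, Q x * (if j ∈ T x then (1:ℝ) else 0) := by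
          refine Finset.sum_le_sum fun x _ => ?_
          rw [← Finset.mul_sum]
          refine mul_le_mul_of_nonneg_left ?_ (hQ0 x)
          have : ∑ j, (if j ∈ T x then (1:ℝ) else 0) = (T x).card := by
            rw [Finset.sum_ite_mem]; simp
          rw [this]; exact hb x
  have hpq : ∑ j, p j * q j = 1 := by
    have h1 : ∀ x, ∑ j, (if j ∈ S x then (1:ℝ) else 0) * q j = 1 := by
      intro x
      have : ∀ j, (if j ∈ S x then (1:ℝ) else 0) * q j
          = ∑ y, Q y * ((if j ∈ S x then (1:ℝ) else 0) * (if j ∈ T y then (1:ℝ) else 0)) := by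
        intro j
        simp only [hq, Finset.mul_sum]
        exact Finset.sum_congr rfl fun y _ => by ring
      simp only [this]
      rw [Finset.sum_comm]
      calc ∑ y, ∑ j, Q y * ((if j ∈ S x then (1:ℝ) else 0) * (if j ∈ T y then (1:ℝ) else 0))
          = ∑ y, Q y * 1 := by
            refine Finset.sum_congr rfl fun y _ => ?_
            rw [← Finset.mul_sum]
            congr 1
            have h2 : ∀ j, (if j ∈ S x then (1:ℝ) else 0) * (if j ∈ T y then (1:ℝ) else 0)
                = if j ∈ S x ∩ T y then (1:ℝ) else 0 := by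
              intro j
              by_cases h3 : j ∈ S x <;> by_cases h4 : j ∈ T y <;> simp [h3, h4]
            simp only [h2]
            rw [Finset.sum_ite_mem, Finset.univ_inter, Finset.sum_const, hST x y]
            simp
        _ = 1 := by simp [hQ1]
    have h3 : ∀ j, p j * q j = ∑ x, P x * ((if j ∈ S x then (1:ℝ) else 0) * q j) := by
      intro j
      simp only [hp, Finset.sum_mul]
      exact Finset.sum_congr rfl fun x _ => by ring
    simp only [h3]
    rw [Finset.sum_comm]
    simp only [← Finset.mul_sum, h1, mul_one, hP1]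
  have h0 : 0 ≤ ∑ j, (1 - 2 * p j) * (1 - 2 * q j) := Finset.sum_nonneg fun j _ =>
    mul_nonneg (by linarith [hPv j]) (by linarith [hQv j])
  have h1 : ∑ j, (1 - 2 * p j) * (1 - 2 * q j)
      = Fintype.card J - 2 * ∑ j, p j - 2 * ∑ j, q j + 4 * ∑ j, p j * q j := by
    have : ∀ j, (1 - 2 * p j) * (1 - 2 * q j)
        = 1 - 2 * p j - 2 * q j + 4 * (p j * q j) := fun j => by ring
    simp only [this, Finset.sum_add_distrib, Finset.sum_sub_distrib, ← Finset.mul_sum]
    simp
  rw [h1, hpq] at h0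
  linarith

/-- The main bound. -/
theorem main_bound [Nonempty ι] [Nonempty κ] (S : ι → Finset J) (T : κ → Finset J)
    (hST : ∀ x y, (S x ∩ T y).card = 1)
    (hS1 : ∀ j, ∃ x, j ∈ S x) (hS0 : ∀ j, ∃ x, j ∉ S x)
    (hT1 : ∀ j, ∃ y, j ∈ T y) (hT0 : ∀ j, ∃ y, j ∉ T y) (a b : ℝ)
    (ha : ∀ x, a ≤ (S x).card) (hb : ∀ y, b ≤ (T y).card) :
    ∃ t : ℝ, 0 < t ∧ t < 1 ∧
      (1 - t) * (a - 1) + t * (b - 1) ≤ t * (1 - t) * Fintype.card J := by
  classical
  have hJ : Nonempty J := by
    obtain ⟨x⟩ := (inferInstance : Nonempty ι)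
    obtain ⟨y⟩ := (inferInstance : Nonempty κ)
    have h := hST x y
    obtain ⟨j, -⟩ := Finset.card_pos.1 (by omega : 0 < (S x ∩ T y).card)
    exact ⟨j⟩
  obtain ⟨P, w, v, hP0, hP1, hw0, hw1, hPv, hwv⟩ :=
    exists_optimal (fun (x : ι) (j : J) => if j ∈ S x then (1:ℝ) else 0)
  obtain ⟨Q, z, v', hQ0, hQ1, hz0, hz1, hQv, hzv⟩ :=
    exists_optimal (fun (x : κ) (j : J) => if j ∈ T x then (1:ℝ) else 0)
  by_cases hv : 1 / 2 < v
  · obtain ⟨h1, h2⟩ := unbalanced S T hST hS1 hS0 hT1 a b ha hb P w v hP0 hP1 hw0 hw1 hPv hwv hv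
    exact ⟨v, by linarith, h1, h2⟩
  by_cases hv' : 1 / 2 < v'
  · obtain ⟨h1, h2⟩ := unbalanced T S (fun x y => by rw [Finset.inter_comm]; exact hST y x)
      hT1 hT0 hS1 b a hb ha Q z v' hQ0 hQ1 hz0 hz1 hQv hzv hv'
    refine ⟨1 - v', by linarith, by linarith, ?_⟩
    have : (1 - (1 - v')) = v' := by ring
    rw [this]
    linarith
  · push Not at hv hv'
    have h1 := balanced S T hST a b ha hb P hP0 hP1 Q hQ0 hQ1
      (fun j => (hPv j).trans hv) (fun j => (hQv j).trans hv')
    exact ⟨1 / 2, by norm_num, by norm_num, by linarith⟩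

end core

end N382.Pierce
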